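import Pool.Agent.N65.TE.Root
import Pool.Agent.V7H64.BR.Chart
set_option autoImplicit false

/-!
Functions of small parameters on tori, and the implicit function theorem for systems.
-/

namespace Pool.Agent.V7H64.FS

open Filter Topology

open Pool.Agent.TH826.MK

open Pool.Agent.TH826.SX (exists_nice)

open Pool.Agent.N65.TL (contDiffAt_zpow)

open Pool.Agent.V7H64.BR (dpoly dpoly_apply hasFDerivAt_poly contDiff_poly)

section par

variable {ι : Type*} [Fintype ι]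

/-- Functions of small parameters. -/
theorem exists_par {r : ℕ} {U : (ι → ℂ) → Fin r → ℂ} (hU : ContDiffAt ℂ 2 U 0) {J : Type*}
    [Fintype J] (H : J → (ι → ℂ) → ℂ) (hH : ∀ j, ContDiffAt ℂ 2 (H j) 0) (hH0 : ∀ j, H j 0 = 1)
    {P : (ι → ℂ) → Prop} (hP : ∀ᶠ u in 𝓝 (0 : ι → ℂ), P u) {δ : ℝ} (hδ : 0 < δ) :
    ∃ η : ℝ, 0 < η ∧ ∀ (D : ℕ) (u : (Fin D → ℝ) → ι → ℂ), ContDiff ℝ 2 u →
      (∀ θ, ‖u θ‖ ≤ η) → (∀ θ j, ‖fderiv ℝ u θ (Pi.single j 1)‖ ≤ η) →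
      ContDiff ℝ 2 (fun θ => U (u θ)) ∧ (∀ θ, P (u θ)) ∧ ∀ j, Good (fun θ => H j (u θ)) ∧
        (∀ θ, |Real.log ‖H j (u θ)‖| ≤ δ) ∧ ∀ i θ, ‖lw (fun θ => H j (u θ)) i θ‖ ≤ δ := by
  classical
  have hHne : ∀ j, H j 0 ≠ 0 := fun j => by rw [hH0 j]; exact one_ne_zero
  choose C hC using fun j => exists_nice (hH j) (hHne j)
  have hlog : ∀ j, ∀ᶠ x in 𝓝 (0 : ι → ℂ), |Real.log ‖H j x‖| < δ := by
    intro j
    have c1 : ContinuousAt (fun x => |Real.log ‖H j x‖|) 0 :=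
      (((hH j).continuousAt.norm).log (norm_ne_zero_iff.2 (hHne j))).abs
    refine c1.eventually_lt continuousAt_const ?_
    rw [hH0 j]
    simpa using hδ
  have hUe : ∀ᶠ x in 𝓝 (0 : ι → ℂ), ContDiffAt ℂ 2 U x := hU.eventually (by norm_num)
  obtain ⟨r0, hr, hball⟩ := Metric.eventually_nhds_iff.1
    (((eventually_all.2 hC).and (eventually_all.2 hlog)).and (hUe.and hP))
  set C0 : ℝ := 1 + ∑ j, |C j| with hC0
  have hC00 : 0 < C0 := by
    have : 0 ≤ ∑ j, |C j| := Finset.sum_nonneg fun j _ => abs_nonneg _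
    linarith
  have hCle : ∀ j, C j ≤ C0 := fun j => by
    have h1 : |C j| ≤ ∑ j, |C j| :=
      Finset.single_le_sum (f := fun j => |C j|) (fun j _ => abs_nonneg _) (Finset.mem_univ j)
    linarith [le_abs_self (C j)]
  set η : ℝ := min (r0 / 2) (δ / C0) with hη
  have hη0 : 0 < η := lt_min (by linarith) (by positivity)
  have hηr : η < r0 := lt_of_le_of_lt (min_le_left _ _) (by linarith)
  have hηδ : C0 * η ≤ δ := by
    have h1 : η ≤ δ / C0 := min_le_right _ _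
    rw [le_div_iff₀ hC00] at h1
    linarith
  refine ⟨η, hη0, fun D u hu hn hd => ?_⟩
  have hxr : ∀ θ, dist (u θ) 0 < r0 := fun θ => by
    rw [dist_zero_right]
    exact (hn θ).trans_lt hηr
  refine ⟨?_, fun θ => (hball (hxr θ)).2.2, fun j => ⟨⟨?_, fun θ =>
    ((hball (hxr θ)).1.1 j).2.1⟩, fun θ => ((hball (hxr θ)).1.2 j).le, fun i θ => ?_⟩⟩
  · rw [contDiff_iff_contDiffAt]
    intro θ
    exact ((hball (hxr θ)).2.1.restrict_scalars ℝ).comp θ hu.contDiffAt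
  · rw [contDiff_iff_contDiffAt]
    intro θ
    exact ((((hball (hxr θ)).1.1 j).1).restrict_scalars ℝ).comp θ hu.contDiffAt
  · have hdu : HasFDerivAt u (fderiv ℝ u θ) θ := ((hu.differentiable (by norm_num)) θ).hasFDerivAt
    obtain ⟨h1, h2, -, h3⟩ := (hball (hxr θ)).1.1 j
    have h4 : HasFDerivAt (H j) ((fderiv ℂ (H j) (u θ)).restrictScalars ℝ) (u θ) :=
      ((h1.differentiableAt (by norm_num)).hasFDerivAt).restrictScalars ℝ
    have h5 := (h4.comp θ hdu).fderiv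
    have h6 : fderiv ℝ (fun θ => H j (u θ)) θ (Pi.single i 1) =
        fderiv ℂ (H j) (u θ) (fderiv ℝ u θ (Pi.single i 1)) :=
      DFunLike.congr_fun h5 (Pi.single i 1)
    unfold lw
    rw [h6, norm_div]
    have hpos : 0 < ‖H j (u θ)‖ := norm_pos_iff.2 h2
    have h7 : ‖fderiv ℂ (H j) (u θ) (fderiv ℝ u θ (Pi.single i 1))‖ ≤
        ‖fderiv ℂ (H j) (u θ)‖ * η :=
      (ContinuousLinearMap.le_opNorm _ _).trans
        (mul_le_mul_of_nonneg_left (hd θ i) (norm_nonneg _))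
    calc _ ≤ ‖fderiv ℂ (H j) (u θ)‖ * η / ‖H j (u θ)‖ := div_le_div_of_nonneg_right h7 hpos.le
      _ = ‖fderiv ℂ (H j) (u θ)‖ / ‖H j (u θ)‖ * η := by ring
      _ ≤ C0 * η := mul_le_mul_of_nonneg_right (h3.trans (hCle j)) hη0.le
      _ ≤ δ := hηδ

/-- Small multiples of good functions. -/
theorem small_u {D : ℕ} {g : ι → (Fin D → ℝ) → ℂ} (hg : ∀ i, Good (g i))
    (hg1 : ∀ i θ, ‖g i θ‖ ≤ 1) {B : ℝ} (hB : 0 ≤ B) (hgl : ∀ i j θ, ‖lw (g i) j θ‖ ≤ B)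
    (s : ι → ℂ) {η : ℝ} (hη : 0 ≤ η) (hs : ∀ i, ‖s i‖ * (1 + B) ≤ η) :
    ContDiff ℝ 2 (fun θ i => s i * g i θ) ∧ (∀ θ, ‖fun i => s i * g i θ‖ ≤ η) ∧
      ∀ θ j, ‖fderiv ℝ (fun θ i => s i * g i θ) θ (Pi.single j 1)‖ ≤ η := by
  have hxc : ContDiff ℝ 2 (fun θ i => s i * g i θ) :=
    contDiff_pi.2 fun i => contDiff_const.mul (hg i).smooth
  refine ⟨hxc, fun θ => ?_, fun θ j => ?_⟩
  · rw [pi_norm_le_iff_of_nonneg hη]
    intro i
    rw [norm_mul]
    refine le_trans ?_ (hs i)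
    refine mul_le_mul_of_nonneg_left ((hg1 i θ).trans (by linarith)) (norm_nonneg _)
  · set u : (Fin D → ℝ) → ι → ℂ := fun θ i => s i * g i θ with hu
    have hd : HasFDerivAt u (fderiv ℝ u θ) θ := ((hxc.differentiable (by norm_num)) θ).hasFDerivAt
    rw [pi_norm_le_iff_of_nonneg hη]
    intro i
    have h1 := ((ContinuousLinearMap.proj (R := ℝ) (φ := fun _ : ι => ℂ) i).hasFDerivAt).comp θ hd
    have h2 := h1.fderiv
    have h3 : fderiv ℝ u θ (Pi.single j 1) i =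
        fderiv ℝ (fun θ => u θ i) θ (Pi.single j 1) :=
      (DFunLike.congr_fun h2 (Pi.single j 1)).symm
    have h4 : fderiv ℝ (fun θ => u θ i) θ (Pi.single j 1) =
        s i * (lw (g i) j θ * g i θ) := by
      have h5 : (fun θ => u θ i) = fun θ => s i * g i θ := rfl
      rw [h5]
      unfold lw
      rw [div_mul_cancel₀ _ ((hg i).ne_zero θ),
        fderiv_const_mul (((hg i).smooth.differentiable (by norm_num)) θ)]
      rfl
    rw [h3, h4, norm_mul, norm_mul]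
    refine le_trans ?_ (hs i)
    refine mul_le_mul_of_nonneg_left ?_ (norm_nonneg _)
    calc ‖lw (g i) j θ‖ * ‖g i θ‖ ≤ B * 1 :=
          mul_le_mul (hgl i j θ) (hg1 i θ) (norm_nonneg _) hB
      _ ≤ 1 + B := by linarith

end par

section implicit

variable {K : Type*} [Field K] {d : ℕ} (σ : K →+* ℂ)

/-- The solutions `(h, x)` near `(1, p)` of the equations
`w_e h^k + ∑_m u_{e,m} h^(a_{e,m}) = τ⁻¹ F_e(x)`. -/
theorem exists_sol {M : Fin (d + 1 + 1) → Type*} [∀ e, Fintype (M e)] (a : ∀ e, M e → ℤ)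
    (w : Fin (d + 1 + 1) → ℂ) {k : ℕ} (hk : 0 < k)
    (f : Fin (d + 1 + 1) → MvPolynomial (Fin (d + 1)) K) (p : Fin (d + 1) → ℂ) {τ : ℂ}
    (hτ : τ ≠ 0) (hp : ∀ e, MvPolynomial.eval₂ σ p (f e) = τ * w e)
    (hJ : (Matrix.of fun e : Fin (d + 1 + 1) => (Fin.cons (w e) fun j =>
      MvPolynomial.eval₂ σ p (MvPolynomial.pderiv j (f e)) : Fin (d + 1 + 1) → ℂ)).det ≠ 0) :
    ∃ ψ : (((e : Fin (d + 1 + 1)) × M e) → ℂ) → Fin (d + 1 + 1) → ℂ, ContDiffAt ℂ 2 ψ 0 ∧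
      ψ 0 = Fin.cons 1 p ∧ ∀ᶠ u in 𝓝 (0 : ((e : Fin (d + 1 + 1)) × M e) → ℂ), ∀ e,
        w e * ψ u 0 ^ k + ∑ m, u ⟨e, m⟩ * ψ u 0 ^ (a e m) =
          τ⁻¹ * MvPolynomial.eval₂ σ (fun j => ψ u j.succ) (f e) := by
  classical
  set ι := ((e : Fin (d + 1 + 1)) × M e) with hι
  set y0 : Fin (d + 1 + 1) → ℂ := Fin.cons 1 p with hy0
  have hy00 : y0 0 = 1 := by rw [hy0, Fin.cons_zero]
  have hy0s : (fun j : Fin (d + 1) => y0 j.succ) = p := by
    funext j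
    rw [hy0, Fin.cons_succ]
  set Φ : (ι → ℂ) × (Fin (d + 1 + 1) → ℂ) → Fin (d + 1 + 1) → ℂ := fun u e =>
    w e * u.2 0 ^ k + ∑ m, u.1 ⟨e, m⟩ * u.2 0 ^ (a e m) -
      τ⁻¹ * MvPolynomial.eval₂ σ (fun j => u.2 j.succ) (f e) with hΦ
  set u0 : (ι → ℂ) × (Fin (d + 1 + 1) → ℂ) := (0, y0) with hu0
  have hk0 : (k : ℂ) ≠ 0 := by exact_mod_cast hk.ne'
  have h20 : ContDiff ℂ 2 (fun u : (ι → ℂ) × (Fin (d + 1 + 1) → ℂ) => u.2 0) :=
    (contDiff_apply ℂ ℂ (0 : Fin (d + 1 + 1))).comp contDiff_snd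
  have h2s : ContDiff ℂ 2 (fun u : (ι → ℂ) × (Fin (d + 1 + 1) → ℂ) =>
      fun j : Fin (d + 1) => u.2 j.succ) :=
    contDiff_pi.2 fun j => (contDiff_apply ℂ ℂ j.succ).comp contDiff_snd
  have hΦc : ContDiffAt ℂ 2 Φ u0 := by
    refine contDiffAt_pi.2 fun e => ?_
    refine ((contDiffAt_const.mul (h20.contDiffAt.pow k)).add ?_).sub
      (contDiffAt_const.mul ((contDiff_poly σ (f e)).comp h2s).contDiffAt)
    refine ContDiffAt.sum fun m _ => ?_
    refine (((contDiff_apply ℂ ℂ (⟨e, m⟩ : ι)).comp contDiff_fst).contDiffAt).mul ?_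
    refine contDiffAt_zpow h20.contDiffAt ?_ _
    rw [hu0]
    show y0 0 ≠ 0
    rw [hy00]
    exact one_ne_zero
  have hΦ0 : Φ u0 = 0 := by
    funext e
    simp only [hΦ, hu0, Pi.zero_apply, zero_mul, Finset.sum_const_zero, add_zero, hy00, one_pow,
      mul_one, hy0s, hp e]
    field_simp
    ring
  have hn : (2 : WithTop ℕ∞) ≠ 0 := by norm_num
  -- the partial derivative
  set J : Matrix (Fin (d + 1 + 1)) (Fin (d + 1 + 1)) ℂ :=
    Matrix.of fun e : Fin (d + 1 + 1) => (Fin.cons (w e) fun j =>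
      MvPolynomial.eval₂ σ p (MvPolynomial.pderiv j (f e)) : Fin (d + 1 + 1) → ℂ) with hJdef
  have hpart : ∀ y : Fin (d + 1 + 1) → ℂ, ∀ e,
      (fderiv ℂ Φ u0 ∘L ContinuousLinearMap.inr ℂ (ι → ℂ) (Fin (d + 1 + 1) → ℂ)) y e =
        w e * (k * y 0) - τ⁻¹ * ∑ j, MvPolynomial.eval₂ σ p (MvPolynomial.pderiv j (f e)) *
          y j.succ := by
    intro y e
    have h1 : HasFDerivAt Φ (fderiv ℂ Φ u0) u0 :=
      (hΦc.differentiableAt (by norm_num)).hasFDerivAt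
    have h2 : HasFDerivAt (fun y : Fin (d + 1 + 1) → ℂ => ((0, y) : (ι → ℂ) × _))
        (ContinuousLinearMap.inr ℂ (ι → ℂ) (Fin (d + 1 + 1) → ℂ)) y0 := hasFDerivAt_prodMk_right _ _
    have h3 : HasFDerivAt (fun y : Fin (d + 1 + 1) → ℂ => Φ (0, y)) (fderiv ℂ Φ u0 ∘L
        ContinuousLinearMap.inr ℂ (ι → ℂ) (Fin (d + 1 + 1) → ℂ)) y0 := h1.comp y0 h2
    have h4 := (hasFDerivAt_pi'.1 h3) e
    have h5 : (fun y : Fin (d + 1 + 1) → ℂ => Φ (0, y) e) = fun y => w e * y 0 ^ k -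
        τ⁻¹ * MvPolynomial.eval₂ σ (fun j => y j.succ) (f e) := by
      funext y
      simp only [hΦ, Pi.zero_apply, zero_mul, Finset.sum_const_zero, add_zero]
    rw [h5] at h4
    have a0 : HasFDerivAt (fun y : Fin (d + 1 + 1) → ℂ => y 0)
        (ContinuousLinearMap.proj (R := ℂ) (φ := fun _ : Fin (d + 1 + 1) => ℂ) 0) y0 :=
      (ContinuousLinearMap.proj (R := ℂ) (φ := fun _ : Fin (d + 1 + 1) => ℂ) 0).hasFDerivAt
    have a1 := (a0.pow k).const_mul (w e)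
    have b0 : HasFDerivAt (fun y : Fin (d + 1 + 1) → ℂ => fun j : Fin (d + 1) => y j.succ)
        (ContinuousLinearMap.pi fun j : Fin (d + 1) =>
          ContinuousLinearMap.proj (R := ℂ) (φ := fun _ : Fin (d + 1 + 1) => ℂ) j.succ) y0 :=
      hasFDerivAt_pi.2 fun j =>
        (ContinuousLinearMap.proj (R := ℂ) (φ := fun _ : Fin (d + 1 + 1) => ℂ) j.succ).hasFDerivAt
    have b1 : HasFDerivAt (fun x => MvPolynomial.eval₂ σ x (f e)) (dpoly σ (f e) p)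
        ((fun y : Fin (d + 1 + 1) → ℂ => fun j : Fin (d + 1) => y j.succ) y0) := by
      show HasFDerivAt _ _ (fun j : Fin (d + 1) => y0 j.succ)
      rw [hy0s]
      exact hasFDerivAt_poly σ (f e) p
    have b2 := (b1.comp y0 b0).const_mul (τ⁻¹)
    have h6 := h4.unique (a1.sub b2)
    have h7 := DFunLike.congr_fun h6 y
    have h8 : (fderiv ℂ Φ u0 ∘L ContinuousLinearMap.inr ℂ (ι → ℂ) (Fin (d + 1 + 1) → ℂ)) y e =
      ((ContinuousLinearMap.proj (R := ℂ) (φ := fun _ : Fin (d + 1 + 1) => ℂ) e).comp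
        (fderiv ℂ Φ u0 ∘L ContinuousLinearMap.inr ℂ (ι → ℂ) (Fin (d + 1 + 1) → ℂ))) y := rfl
    rw [h8, h7]
    simp only [ContinuousLinearMap.sub_apply, ContinuousLinearMap.smul_apply, smul_eq_mul,
      ContinuousLinearMap.comp_apply, ContinuousLinearMap.proj_apply, hy00, one_pow, mul_one]
    rw [dpoly_apply]
    simp
  have hinj : Function.Injective (fderiv ℂ Φ u0 ∘L
      ContinuousLinearMap.inr ℂ (ι → ℂ) (Fin (d + 1 + 1) → ℂ)) := by
    rw [injective_iff_map_eq_zero]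
    intro y hy
    have h1 : J.mulVec (Fin.cons (k * y 0) fun j => -τ⁻¹ * y j.succ) = 0 := by
      funext e
      have h2 := hpart y e
      rw [hy] at h2
      rw [Matrix.mulVec, dotProduct, Fin.sum_univ_succ]
      simp only [hJdef, Matrix.of_apply, Fin.cons_zero, Fin.cons_succ]
      rw [h2, Finset.mul_sum, sub_eq_add_neg, ← Finset.sum_neg_distrib]
      congr 1
      refine Finset.sum_congr rfl fun j _ => ?_
      ring
    have h2 := Matrix.eq_zero_of_mulVec_eq_zero hJ h1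
    funext i
    refine Fin.cases ?_ (fun j => ?_) i
    · have h3 := congrFun h2 0
      rw [Fin.cons_zero, Pi.zero_apply] at h3
      exact (mul_eq_zero.1 h3).resolve_left hk0
    · have h3 := congrFun h2 j.succ
      rw [Fin.cons_succ, Pi.zero_apply] at h3
      exact (mul_eq_zero.1 h3).resolve_left (neg_ne_zero.2 (inv_ne_zero hτ))
  have hinv : (fderiv ℂ Φ u0 ∘L
      ContinuousLinearMap.inr ℂ (ι → ℂ) (Fin (d + 1 + 1) → ℂ)).IsInvertible := by
    set A := fderiv ℂ Φ u0 ∘L ContinuousLinearMap.inr ℂ (ι → ℂ) (Fin (d + 1 + 1) → ℂ) with hA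
    set e := (LinearEquiv.ofInjectiveEndo (A : (Fin (d + 1 + 1) → ℂ) →ₗ[ℂ] _) hinj) with he
    refine ⟨e.toContinuousLinearEquiv, ?_⟩
    ext1 y
    rfl
  refine ⟨hΦc.implicitFunction hn hinv, hΦc.contDiffAt_implicitFunction hn hinv,
    hΦc.implicitFunction_apply_self hn hinv, ?_⟩
  filter_upwards [hΦc.eventually_apply_implicitFunction hn hinv] with u hu e
  rw [hΦ0] at hu
  exact sub_eq_zero.1 (congrFun hu e)

end implicit

end Pool.Agent.V7H64.FS
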