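import Pool.Agent.V7H64.FS.Pts
import Pool.Agent.V7H64.FS.Par
import Pool.Agent.N65.TL.Tor
set_option autoImplicit false

/-!
The regulators of the symbols on balanced systems.
-/

namespace Pool.Agent.V7H64.FS

open Filter Topology

open Pool.Agent.TH826.MK

open Pool.Agent.TH826.SX (pairing_close)

open Pool.Agent.N65.TL

variable {K : Type*} [Field K] {N d : ℕ}

/-- The tori near a vertex. -/
theorem exists_torus (σ : K →+* ℂ) {F : Sys K N d (d + 1)} {al v : Fin (N + 1) → ℤ}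
    {p : Fin (d + 1) → ℂ} {τ : ℂ} (hpos : 0 < dot al v)
    (hmax : ∀ e m, (F.W e).coeff m ≠ 0 → m ≠ v → dot al m < dot al v) (hτ : τ ≠ 0)
    (hp : ∀ e, MvPolynomial.eval₂ σ p (F.form e) = τ * σ ((F.W e).coeff v))
    (hJ : (Matrix.of fun e : Fin (d + 1 + 1) => (Fin.cons (σ ((F.W e).coeff v)) fun j =>
      MvPolynomial.eval₂ σ p (MvPolynomial.pderiv j (F.form e)) : Fin (d + 1 + 1) → ℂ)).det ≠ 0)
    (i0 : Fin (N + 1)) {ε : ℝ} (hε : 0 < ε) :
    ∃ C : ℝ, ∀ lam : K, C ≤ ‖σ lam‖ → F.HasReg lam σ (Real.log ‖σ lam‖)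
      ((2 * Real.pi) ^ N * (zmat al v i0).det) ε := by
  classical
  have hpi := Real.pi_pos
  have hnpi : ‖(2 * Real.pi * Complex.I : ℂ)‖ = 2 * Real.pi := by
    rw [norm_mul, norm_mul, Complex.norm_I, Complex.norm_real, Complex.norm_ofNat, mul_one,
      Real.norm_eq_abs, abs_of_pos Real.pi_pos]
  set k : ℕ := (dot al v).toNat with hk
  have hkz : (k : ℤ) = dot al v := Int.toNat_of_nonneg hpos.le
  have hk0 : 0 < k := by omega
  have hkR : (1 : ℝ) ≤ k := by exact_mod_cast hk0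
  have hkzR : ((dot al v : ℤ) : ℝ) = k := by
    rw [← hkz]
    simp
  obtain ⟨δ, hδ, hclose⟩ := pairing_close (zmat al v i0) hε
  set A : ℝ := 1 + ∑ i, |(al i : ℝ)| with hA
  have hsa : 0 ≤ ∑ i, |(al i : ℝ)| := Finset.sum_nonneg fun i _ => abs_nonneg _
  have hA1 : 1 ≤ A := by linarith
  have hAi : ∀ i, |(al i : ℝ)| ≤ A := by
    intro i
    have h2 : |(al i : ℝ)| ≤ ∑ i, |(al i : ℝ)| :=
      Finset.single_le_sum (f := fun i => |(al i : ℝ)|) (fun i _ => abs_nonneg _)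
        (Finset.mem_univ i)
    linarith
  set δ0 : ℝ := δ / (4 * A) with hδ0
  have hδ0pos : 0 < δ0 := div_pos hδ (by linarith)
  have hδle : 3 * (A * δ0) < δ := by
    have h2 : δ = 4 * (A * δ0) := by
      rw [hδ0]
      field_simp
    have h3 : 0 < A * δ0 := by positivity
    linarith
  -- the solutions near the vertex
  set M : Fin (d + 1 + 1) → Type := fun e => {m // m ∈ (F.W e).coeff.support.erase v} with hM
  set ι := ((e : Fin (d + 1 + 1)) × M e) with hι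
  obtain ⟨ψ, hψc, hψ0, hψe⟩ := exists_sol σ (M := M) (fun e m => dot al m.1)
    (fun e => σ ((F.W e).coeff v)) hk0 F.form p hτ hp hJ
  obtain ⟨η, hη, hpar⟩ := exists_par (U := fun u => fun j : Fin (d + 1) => ψ u j.succ)
    (contDiffAt_pi.2 fun j => contDiffAt_pi.1 hψc j.succ) (J := Unit) (fun _ u => ψ u 0)
    (fun _ => contDiffAt_pi.1 hψc 0) (fun _ => by rw [hψ0, Fin.cons_zero]) hψe hδ0pos
  -- the angular parts
  set T : ι → (Fin N → ℝ) → ℂ := fun m θ => ∏ i, tau v i0 (fun l : Fin N => l) i θ ^ (m.2.1 i)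
    with hT
  have hTg : ∀ m, Good (T m) := fun m => good_prod Finset.univ fun i => good_zpow (good_tau i) _
  have hTn : ∀ m θ, ‖T m θ‖ ≤ 1 := by
    intro m θ
    simp only [hT]
    rw [norm_prod]
    refine (Finset.prod_eq_one fun i _ => ?_).le
    rw [norm_zpow, norm_tau, one_zpow]
  set BT : ℝ := ∑ m : ι, ∑ i, |(m.2.1 i : ℝ)| *
    (2 * Real.pi * ∑ l, |(bdir v i0 l i : ℝ)|) with hBT
  have hbt0 : ∀ m : ι, 0 ≤ ∑ i, |(m.2.1 i : ℝ)| *
      (2 * Real.pi * ∑ l, |(bdir v i0 l i : ℝ)|) := fun m =>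
    Finset.sum_nonneg fun i _ => mul_nonneg (abs_nonneg _) (mul_nonneg (by positivity)
      (Finset.sum_nonneg fun l _ => abs_nonneg _))
  have hBT0 : 0 ≤ BT := Finset.sum_nonneg fun m _ => hbt0 m
  have hlT : ∀ m j θ, ‖lw (T m) j θ‖ ≤ BT := by
    intro m j θ
    have h1 : lw (T m) j θ = ∑ i, (m.2.1 i : ℂ) * lw (tau v i0 (fun l : Fin N => l) i) j θ := by
      rw [hT]
      simp only
      rw [lw_prod Finset.univ fun i => good_zpow (good_tau i) _]
      exact Finset.sum_congr rfl fun i _ => lw_zpow (good_tau i) _ _ _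
    rw [h1]
    have h2 : ∑ i, |(m.2.1 i : ℝ)| * (2 * Real.pi * ∑ l, |(bdir v i0 l i : ℝ)|) ≤ BT :=
      Finset.single_le_sum (f := fun m : ι => ∑ i, |(m.2.1 i : ℝ)| *
        (2 * Real.pi * ∑ l, |(bdir v i0 l i : ℝ)|)) (fun m _ => hbt0 m) (Finset.mem_univ m)
    refine le_trans (norm_sum_le _ _) (le_trans (Finset.sum_le_sum fun i _ => ?_) h2)
    rw [norm_mul, Complex.norm_intCast, lw_tau, norm_mul]
    refine mul_le_mul_of_nonneg_left ?_ (abs_nonneg _)
    rw [hnpi]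
    refine mul_le_mul_of_nonneg_left ?_ (by positivity)
    refine (norm_sum_le _ _).trans (Finset.sum_le_sum fun l _ => ?_)
    split_ifs
    · rw [Complex.norm_intCast]
    · rw [norm_zero]
      exact abs_nonneg _
  -- constants
  set M0 : ℝ := ∑ m : ι, ‖σ ((F.W m.1).coeff m.2.1)‖ with hM0
  have hM00 : 0 ≤ M0 := Finset.sum_nonneg fun m _ => norm_nonneg _
  have hM0i : ∀ m : ι, ‖σ ((F.W m.1).coeff m.2.1)‖ ≤ M0 := fun m =>
    Finset.single_le_sum (f := fun m : ι => ‖σ ((F.W m.1).coeff m.2.1)‖)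
      (fun m _ => norm_nonneg _) (Finset.mem_univ m)
  set R : ℝ := 1 + M0 * (1 + BT) / η with hR
  have hMη : 0 ≤ M0 * (1 + BT) / η := by positivity
  have hR1 : 1 ≤ R := by linarith
  have hR0 : 0 < R := by linarith
  have hRη : M0 * (1 + BT) ≤ η * R := by
    have h1 : η * R = η + M0 * (1 + BT) := by
      rw [hR]
      field_simp
    linarith
  have hτn : 0 < ‖τ‖ := norm_pos_iff.2 hτ
  set G : ℝ := A * (|Real.log ‖τ‖| + δ0) / (A * δ0) + 1 with hG
  have hAδ : 0 < A * δ0 := by positivity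
  have hG0 : 0 < G := by
    have h1 := abs_nonneg (Real.log ‖τ‖)
    positivity
  refine ⟨Real.exp G + R ^ k / ‖τ‖, fun lam hlam => ?_⟩
  have hln : 0 < ‖σ lam‖ := by
    have h1 := Real.exp_pos G
    have h2 : 0 < R ^ k / ‖τ‖ := by positivity
    linarith
  have hl0 : σ lam ≠ 0 := norm_pos_iff.1 hln
  set t : ℝ := Real.log ‖σ lam‖ with ht
  have htG : G ≤ t := by
    rw [ht, Real.le_log_iff_exp_le hln]
    have h2 : 0 < R ^ k / ‖τ‖ := by positivity
    linarith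
  have htpos : 0 < t := by linarith
  obtain ⟨κ, hκ⟩ := IsAlgClosed.exists_pow_nat_eq (σ lam * τ) hk0
  have hκ0 : κ ≠ 0 := by
    rintro rfl
    rw [zero_pow hk0.ne'] at hκ
    exact (mul_ne_zero hl0 hτ) hκ.symm
  have hκn : 0 < ‖κ‖ := norm_pos_iff.2 hκ0
  have hκR : R ≤ ‖κ‖ := by
    refine le_of_pow_le_pow_left₀ hk0.ne' hκn.le ?_
    rw [← norm_pow, hκ, norm_mul]
    have h1 : R ^ k / ‖τ‖ ≤ ‖σ lam‖ := by linarith [Real.exp_pos G]
    rwa [div_le_iff₀ hτn] at h1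
  have hlogκ : Real.log ‖κ‖ = (t + Real.log ‖τ‖) / k := by
    have h1 : (k : ℝ) * Real.log ‖κ‖ = t + Real.log ‖τ‖ := by
      rw [← Real.log_pow, ← norm_pow, hκ, norm_mul, Real.log_mul hln.ne' hτn.ne']
    rw [← h1]
    field_simp
  -- the small parameters
  set s : ι → ℂ := fun m => σ ((F.W m.1).coeff m.2.1) * κ ^ (dot al m.2.1 - k) with hs
  have hdotlt : ∀ m : ι, dot al m.2.1 < k := by
    intro m
    rw [hkz]
    exact hmax m.1 m.2.1 (Finsupp.mem_support_iff.1 (Finset.mem_of_mem_erase m.2.2))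
      (Finset.ne_of_mem_erase m.2.2)
  have hsn : ∀ m, ‖s m‖ * (1 + BT) ≤ η := by
    intro m
    have h1 : ‖κ ^ (dot al m.2.1 - k)‖ ≤ 1 / R := by
      obtain ⟨n, hn⟩ : ∃ n : ℕ, (k : ℤ) - dot al m.2.1 = n + 1 :=
        ⟨((k : ℤ) - dot al m.2.1 - 1).toNat, by
          have := hdotlt m
          omega⟩
      have h1 : dot al m.2.1 - k = -((n + 1 : ℕ) : ℤ) := by
        push_cast
        omega
      rw [h1, zpow_neg, zpow_natCast, norm_inv, norm_pow, ← one_div]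
      refine one_div_le_one_div_of_le hR0 ?_
      calc R ≤ R ^ (n + 1) := le_self_pow₀ hR1 (Nat.succ_ne_zero n)
        _ ≤ ‖κ‖ ^ (n + 1) := pow_le_pow_left₀ hR0.le hκR _
    simp only [hs]
    rw [norm_mul]
    calc ‖σ ((F.W m.1).coeff m.2.1)‖ * ‖κ ^ (dot al m.2.1 - k)‖ * (1 + BT)
        ≤ M0 * (1 / R) * (1 + BT) := by
          refine mul_le_mul_of_nonneg_right ?_ (by linarith)
          exact mul_le_mul (hM0i m) h1 (norm_nonneg _) hM00
      _ = M0 * (1 + BT) / R := by ring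
      _ ≤ η := by
        rw [div_le_iff₀ hR0]
        exact hRη
  obtain ⟨huc, hun, hud⟩ := small_u hTg hTn hBT0 hlT s hη.le hsn
  set u : (Fin N → ℝ) → ι → ℂ := fun θ m => s m * T m θ with hu
  obtain ⟨hXc, hPu, hH⟩ := hpar N u huc hun hud
  obtain ⟨hhg, hhlog, hhlw⟩ := hH ()
  set X : (Fin N → ℝ) → Fin (d + 1) → ℂ := fun θ j => ψ (u θ) j.succ with hX
  set h : (Fin N → ℝ) → ℂ := fun θ => ψ (u θ) 0 with hh
  have hup : ∀ θ j, u (θ + Pi.single j 1) = u θ := by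
    intro θ j
    funext m
    simp only [hu, hT]
    congr 1
    exact Finset.prod_congr rfl fun i _ => by rw [per_tau i θ j]
  have hY : Good fun θ => κ * h θ := (good_const hκ0).mul hhg
  set Z : Fin (N + 1) → (Fin N → ℝ) → ℂ := fun i θ =>
    (κ * h θ) ^ (al i) * tau v i0 (fun l : Fin N => l) i θ with hZ
  have hZg : ∀ i, Good (Z i) := fun i => (good_zpow hY _).mul (good_tau i)
  have hZp : ∀ i, Per (Z i) := by
    intro i θ j
    simp only [hZ, hh]
    rw [hup θ j, per_tau i θ j]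
  have hXp : ∀ θ j, X (θ + Pi.single j 1) = X θ := by
    intro θ j
    simp only [hX]
    rw [hup θ j]
  have hPt : ∀ θ, SPt σ F lam (X θ) fun i => Z i θ := by
    intro θ
    refine ⟨fun i => (hZg i).ne_zero θ, fun e => ?_⟩
    have hh0 := hhg.ne_zero θ
    have hκh : κ * h θ ≠ 0 := mul_ne_zero hκ0 hh0
    have h1 : ∀ m : Fin (N + 1) → ℤ, ∏ i, Z i θ ^ (m i) = (κ * h θ) ^ (dot al m) *
        ∏ i, tau v i0 (fun l : Fin N => l) i θ ^ (m i) := fun m => prod_zpow_dot hκh al m _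
    have h2 : ∑ m ∈ (F.W e).coeff.support, σ ((F.W e).coeff m) * ∏ i, Z i θ ^ (m i) =
        σ ((F.W e).coeff v) * ∏ i, Z i θ ^ (v i) +
          ∑ m ∈ (F.W e).coeff.support.erase v, σ ((F.W e).coeff m) * ∏ i, Z i θ ^ (m i) := by
      by_cases hv : v ∈ (F.W e).coeff.support
      · exact (Finset.add_sum_erase _ _ hv).symm
      · rw [Finset.erase_eq_of_notMem hv, Finsupp.notMem_support_iff.1 hv, map_zero, zero_mul,
          zero_add]
    have h3 := hPu θ e
    have h4 : σ lam * MvPolynomial.eval₂ σ (X θ) (F.form e) =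
        κ ^ k * (τ⁻¹ * MvPolynomial.eval₂ σ (fun j => ψ (u θ) j.succ) (F.form e)) := by
      rw [hκ]
      simp only [hX]
      field_simp
    rw [h2, h4, ← h3, mul_add, Finset.mul_sum, h1 v, prod_tau_v, mul_one]
    congr 1
    · rw [← hkz, zpow_natCast, mul_pow]
      ring
    · rw [← Finset.sum_coe_sort ((F.W e).coeff.support.erase v)]
      refine Finset.sum_congr rfl fun m _ => ?_
      rw [h1 m.1, mul_zpow]
      have h5 : u θ ⟨e, m⟩ = σ ((F.W e).coeff m.1) * κ ^ (dot al m.1 - k) *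
        ∏ i, tau v i0 (fun l : Fin N => l) i θ ^ (m.1 i) := rfl
      have h6 : h θ = ψ (u θ) 0 := rfl
      rw [h5, ← h6, zpow_sub₀ hκ0, zpow_natCast]
      field_simp
  refine ⟨mkS hXc hZg hPt hXp hZp, fun θ x => (hPt θ).ev_cst x, ?_⟩
  unfold Sys.sym
  rw [Torus.reg_symb]
  set Γ := mkS hXc hZg hPt hXp hZp with hΓ
  have hfn : ∀ i, Γ.fn (F.z lam i : F.Rg lam) = Z i := by
    intro i
    funext θ
    exact (hPt θ).ev_z i
  refine hclose _ _ htpos.ne' (fun l => Γ.good _) (fun l θ => ?_) (fun l j θ => ?_)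
  · rw [congrFun (hfn l) θ]
    have h0 : zmat al v i0 l 0 = (al l : ℝ) / k := by
      show (al l : ℝ) / ((dot al v : ℤ) : ℝ) = _
      rw [hkzR]
    have h1 : Real.log ‖Z l θ‖ = al l * (Real.log ‖κ‖ + Real.log ‖h θ‖) := by
      simp only [hZ]
      rw [norm_mul, norm_tau, mul_one, norm_zpow, Real.log_zpow, norm_mul,
        Real.log_mul hκn.ne' (norm_ne_zero_iff.2 (hhg.ne_zero θ))]
    rw [h0, h1, hlogκ]
    have hk' : (k : ℝ) ≠ 0 := by positivity
    have h2 : al l * ((t + Real.log ‖τ‖) / k + Real.log ‖h θ‖) / t - (al l : ℝ) / k =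
        al l * (Real.log ‖τ‖ / k + Real.log ‖h θ‖) / t := by
      field_simp
      ring
    rw [h2, abs_div, abs_of_pos htpos, div_lt_iff₀ htpos, abs_mul]
    have h3 : |Real.log ‖τ‖ / k + Real.log ‖h θ‖| ≤ |Real.log ‖τ‖| + δ0 := by
      refine (abs_add_le _ _).trans (add_le_add ?_ (hhlog θ))
      rw [abs_div, abs_of_pos (by positivity : (0 : ℝ) < k)]
      exact div_le_self (abs_nonneg _) hkR
    have h4 : |(al l : ℝ)| * |Real.log ‖τ‖ / k + Real.log ‖h θ‖| ≤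
        A * (|Real.log ‖τ‖| + δ0) := mul_le_mul (hAi l) h3 (abs_nonneg _) (by linarith)
    have h5 : A * (|Real.log ‖τ‖| + δ0) / (A * δ0) ≤ t := by linarith
    rw [div_le_iff₀ hAδ] at h5
    have h6 : t * (A * δ0) < δ * t := by nlinarith
    linarith
  · rw [hfn l]
    have h0 : zmat al v i0 l j.succ = (bdir v i0 j l : ℝ) := rfl
    have h1 : lw (Z l) j θ = al l * lw h j θ + 2 * Real.pi * Complex.I * (bdir v i0 j l : ℂ) := by
      simp only [hZ]
      rw [lw_mul (good_zpow hY _) (good_tau l), lw_zpow hY, lw_mul (good_const hκ0) hhg,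
        lw_const, zero_add, lw_tau]
      congr 2
      rw [Finset.sum_ite_eq Finset.univ j, if_pos (Finset.mem_univ j)]
    rw [h0, h1, Complex.ofReal_intCast, add_sub_cancel_right, norm_mul, Complex.norm_intCast]
    calc |(al l : ℝ)| * ‖lw h j θ‖ ≤ A * δ0 :=
          mul_le_mul (hAi l) (hhlw j θ) (norm_nonneg _) (by linarith)
      _ < δ := by linarith

/-- The regulators. -/
theorem exists_reg (σ : K →+* ℂ) {F : Sys K N d (d + 1)} (hF : F.Vertex σ) :
    ∃ q : ℝ, q ≠ 0 ∧ ∀ ε : ℝ, 0 < ε → ∃ C : ℝ, ∀ lam : K, C ≤ ‖σ lam‖ →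
      F.HasReg lam σ (Real.log ‖σ lam‖) q ε := by
  obtain ⟨al, v, p, τ, hpos, hmax, hτ, hp, hJ⟩ := hF
  have hpos' : 0 < dot al v := hpos
  obtain ⟨i0, hi0⟩ : ∃ i0, v i0 ≠ 0 := by
    by_contra hcon
    push Not at hcon
    have h1 : dot al v = 0 := Finset.sum_eq_zero fun i _ => by rw [hcon i, mul_zero]
    omega
  refine ⟨(2 * Real.pi) ^ N * (zmat al v i0).det,
    mul_ne_zero (pow_ne_zero _ (by have := Real.pi_pos; positivity)) (det_zmat hpos' hi0),
    fun ε hε => ?_⟩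
  exact exists_torus σ hpos' hmax hτ hp hJ i0 hε

end Pool.Agent.V7H64.FS
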