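import Pool.Agent.V7H64.FS.Def
import Pool.Agent.V7H64.BR.Val
import Pool.Agent.N65.TE.Unram
set_option autoImplicit false

/-!
The symbols on systems with a linear relation between the leading parts are unramified.
-/

namespace Pool.Agent.V7H64.FS

open scoped WithZero

open Pool.Agent.TH826.MK

open Pool.Agent.N65.TL (LP Interior Tame Integral lev mon mem_unitPart_of_tame TRing tlau tpol tz
  zlau hom_eq_lev lev_map)

open Pool.Agent.N65.TD (face val_sub_face coeff_face_of exists_max_dot val_mon)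

open Pool.Agent.N65.TE (val_lev_le)

open Pool.Agent.V7H64.BR (hom_eq_sum val_mono_le val_wt_le exists_scale vpow vpow_apply comp_mul)

section res

variable {K : Type*} [Field K] {d : ℕ} {a : Fin (d + 1) → ℕ} {ι : Type*} [Fintype ι]

/-- the coefficients of the relations can be chosen weighted homogeneous -/
theorem Res.hom {P : ι → MvPolynomial (Fin (d + 1)) K} {R : K} (hR : Res P R) {n : ℕ}
    (hP : ∀ k, (P k).IsWeightedHomogeneous a n) (j : Fin (d + 1)) :
    ∃ (N : ℕ) (b : ι → MvPolynomial (Fin (d + 1)) K),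
      (∀ k i, IsIntegral ℤ ((b k).coeff i)) ∧
      (∀ k, ∀ i ∈ (b k).support, Finsupp.weight a i + n = N * a j) ∧
      MvPolynomial.C R * MvPolynomial.X j ^ N = ∑ k, b k * P k := by
  classical
  obtain ⟨N, b, hb, he⟩ := hR.2.2 j
  refine ⟨N, fun k => if n ≤ N * a j then
    MvPolynomial.weightedHomogeneousComponent a (N * a j - n) (b k) else 0,
    fun k i => ?_, fun k i hi => ?_, ?_⟩
  · simp only
    split_ifs
    · rw [MvPolynomial.coeff_weightedHomogeneousComponent]
      split_ifs
      · exact hb k i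
      · exact isIntegral_zero
    · rw [MvPolynomial.coeff_zero]
      exact isIntegral_zero
  · simp only at hi
    rw [MvPolynomial.mem_support_iff] at hi
    by_cases hM : n ≤ N * a j
    · rw [if_pos hM, MvPolynomial.coeff_weightedHomogeneousComponent] at hi
      split_ifs at hi with h
      · omega
      · exact absurd rfl hi
    · rw [if_neg hM, MvPolynomial.coeff_zero] at hi
      exact absurd rfl hi
  · have h1 : (MvPolynomial.C R * MvPolynomial.X j ^ N :
        MvPolynomial (Fin (d + 1)) K).IsWeightedHomogeneous a (N * a j) := by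
      have h2 := ((MvPolynomial.isWeightedHomogeneous_X K a j).pow N).C_mul R
      rwa [smul_eq_mul] at h2
    rw [← h1.weightedHomogeneousComponent_same, he, map_sum]
    exact Finset.sum_congr rfl fun k _ => comp_mul _ _ _ (hP k)

variable {L : Type*} [Field L] (H : MvPolynomial (Fin (d + 1)) K →+* L) (v : Valuation L ℤᵐ⁰)

/-- one of the `P_k` is large -/
theorem exists_large {P : ι → MvPolynomial (Fin (d + 1)) K} {R : K} (hR : Res P R) {n : ℕ}
    (hP : ∀ k, (P k).IsWeightedHomogeneous a n) {r : ℤ}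
    (hRr : WithZero.exp (-r) ≤ v (H (MvPolynomial.C R))) {ω : ℤ} (hω : 0 ≤ ω)
    (hx : ∀ j, v (H (MvPolynomial.X j)) ≤ WithZero.exp (ω * a j)) {j0 : Fin (d + 1)}
    (hx0 : v (H (MvPolynomial.X j0)) = WithZero.exp (ω * a j0)) :
    ∃ k, WithZero.exp (ω * n - r) ≤ v (H (P k)) := by
  obtain ⟨N, b, hb, hbd, he⟩ := hR.hom hP j0
  by_contra hcon
  push Not at hcon
  have h1 : v (H (MvPolynomial.C R * MvPolynomial.X j0 ^ N)) <
      WithZero.exp (ω * (N * a j0) - r) := by
    rw [he, map_sum]
    refine Valuation.map_sum_lt v WithZero.exp_pos.ne' fun k _ => ?_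
    rw [map_mul, map_mul]
    have h2 : v (H (b k)) ≤ WithZero.exp (ω * ((N : ℤ) * a j0 - n)) := by
      refine val_wt_le H v hω hx (hb k) fun i hi => ?_
      have h3 := hbd k i hi
      have h4 : ((Finsupp.weight a i : ℕ) : ℤ) + n = N * a j0 := by exact_mod_cast h3
      omega
    have h3 : WithZero.exp (ω * (N * a j0) - r) =
        WithZero.exp (ω * ((N : ℤ) * a j0 - n)) * WithZero.exp (ω * n - r) := by
      rw [← WithZero.exp_add]
      congr 1
      ring
    rw [h3]
    exact mul_lt_mul_of_le_of_lt_of_nonneg_of_pos h2 (hcon k) zero_le WithZero.exp_pos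
  rw [map_mul, map_pow, map_mul, map_pow, hx0] at h1
  have h2 : WithZero.exp (ω * (N * a j0) - r) ≤ v (H (MvPolynomial.C R)) *
      WithZero.exp (ω * a j0) ^ N := by
    have h3 : WithZero.exp (ω * (N * a j0) - r) =
        WithZero.exp (-r) * WithZero.exp (ω * a j0) ^ N := by
      rw [← zpow_natCast, ← WithZero.exp_zsmul, ← WithZero.exp_add]
      congr 1
      rw [smul_eq_mul]
      ring
    rw [h3]
    exact mul_le_mul' hRr le_rfl
  exact absurd h1 (not_lt.2 h2)

/-- Either all `λ (P_k + q_k)` are integral, or the sum of the `q_k` is smaller than one of the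
`P_k + q_k`. -/
theorem int_or_small {P q : ι → MvPolynomial (Fin (d + 1)) K} {R mu : K} (hR : Res P R) {n : ℕ}
    (ha : ∀ j, 0 < a j) (hP : ∀ k, (P k).IsWeightedHomogeneous a n)
    (hq : ∀ k, ∀ i ∈ (q k).support, Finsupp.weight a i < n)
    (hPint : ∀ k i, IsIntegral ℤ ((P k).coeff i)) (hqint : ∀ k i, IsIntegral ℤ ((q k).coeff i))
    (hmu : IsIntegral ℤ mu) :
    (∀ k, v (H (MvPolynomial.C (mu * R ^ n) * (P k + q k))) ≤ 1) ∨
      ∃ k, v (H (∑ l, q l)) < v (H (P k + q k)) := by
  have hA : (∏ l, a l) ≠ 0 := (Finset.prod_pos fun l _ => ha l).ne'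
  set v' := vpow v hA with hv'
  have hR0 : H (MvPolynomial.C R) ≠ 0 := (map_ne_zero (H.comp MvPolynomial.C)).2 hR.2.1
  have hRv0 : v' (H (MvPolynomial.C R)) ≠ 0 := (Valuation.ne_zero_iff _).2 hR0
  have hRv1 : v' (H (MvPolynomial.C R)) ≤ 1 :=
    val_le_one_of_integral v' (map_isIntegral_int (H.comp MvPolynomial.C) hR.1)
  have hmuv : v' (H (MvPolynomial.C mu)) ≤ 1 :=
    val_le_one_of_integral v' (map_isIntegral_int (H.comp MvPolynomial.C) hmu)
  set r : ℤ := -WithZero.log (v' (H (MvPolynomial.C R))) with hr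
  have hRe : v' (H (MvPolynomial.C R)) = WithZero.exp (-r) := by
    rw [hr, neg_neg, WithZero.exp_log hRv0]
  have hr0 : 0 ≤ r := by
    rw [hRe, ← WithZero.exp_zero, WithZero.exp_le_exp] at hRv1
    omega
  have hback : ∀ {x y : L}, v' x < v' y → v x < v y := by
    intro x y h
    rw [hv', vpow_apply, vpow_apply] at h
    exact lt_of_pow_lt_pow_left₀ _ zero_le h
  rcases exists_scale v (a := a) (fun j => H (MvPolynomial.X j)) (τ := r) with h | ⟨ω, hω, h, j0, h0⟩
  · left
    intro k
    have h1 : v' (H (P k + q k)) ≤ WithZero.exp (r * n) := by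
      have h2 : v' (H (P k)) ≤ WithZero.exp (r * n) :=
        val_wt_le H v' hr0 h (hPint k) fun i hi => by
          rw [hP k (MvPolynomial.mem_support_iff.1 hi)]
      have h3 : v' (H (q k)) ≤ WithZero.exp (r * n) :=
        val_wt_le H v' hr0 h (hqint k) fun i hi => by
          have := hq k i hi
          omega
      rw [map_add]
      exact (v'.map_add _ _).trans (max_le h2 h3)
    have h2 : v' (H (MvPolynomial.C (mu * R ^ n) * (P k + q k))) ≤ 1 := by
      rw [map_mul, map_mul, MvPolynomial.C_mul, MvPolynomial.C_pow, map_mul, map_mul, map_pow,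
        map_pow, hRe]
      calc v' (H (MvPolynomial.C mu)) * WithZero.exp (-r) ^ n * v' (H (P k + q k))
          ≤ 1 * WithZero.exp (-r) ^ n * WithZero.exp (r * n) :=
            mul_le_mul' (mul_le_mul' hmuv le_rfl) h1
        _ = 1 := by
          rw [one_mul, ← zpow_natCast, ← WithZero.exp_zsmul, ← WithZero.exp_add,
            ← WithZero.exp_zero]
          congr 1
          rw [smul_eq_mul]
          ring
    rw [hv', vpow_apply] at h2
    exact (pow_le_one_iff hA).1 h2
  · right
    have hω0 : 0 ≤ ω := by omega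
    obtain ⟨k, hk⟩ := exists_large H v' hR hP hRe.ge hω0 h h0
    refine ⟨k, hback ?_⟩
    have hql : ∀ l, v' (H (q l)) ≤ WithZero.exp (ω * ((n : ℤ) - 1)) := fun l =>
      val_wt_le H v' hω0 h (hqint l) fun i hi => by
        have := hq l i hi
        omega
    have hlt : WithZero.exp (ω * ((n : ℤ) - 1)) < v' (H (P k)) := by
      refine lt_of_lt_of_le ?_ hk
      rw [WithZero.exp_lt_exp]
      nlinarith
    have h1 : v' (H (P k + q k)) = v' (H (P k)) := by
      rw [map_add]
      exact Valuation.map_add_eq_of_lt_left v' ((hql k).trans_lt hlt)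
    rw [h1, map_sum]
    refine lt_of_le_of_lt (Valuation.map_sum_le v' fun l _ => hql l) hlt

end res

section main

variable {K : Type*} [Field K] {d n' : ℕ} {a : Fin (d + 1) → ℕ} {ι : Type*} [Fintype ι]
  {L : Type*} [Field L]

/-- The symbol of the coordinates of a point of the system lies in the unit part. -/
theorem mem_unitPart_of_rel (H : MvPolynomial (Fin (d + 1)) K →+* L) (v : Valuation L ℤᵐ⁰)
    (z : Fin n' → Lˣ) {W : ι → LP K n'} {P q : ι → MvPolynomial (Fin (d + 1)) K} {R mu : K}
    (hR : Res P R) {n : ℕ} (ha : ∀ j, 0 < a j) (hP : ∀ k, (P k).IsWeightedHomogeneous a n)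
    (hq : ∀ k, ∀ i ∈ (q k).support, Finsupp.weight a i < n)
    (hPint : ∀ k i, IsIntegral ℤ ((P k).coeff i)) (hqint : ∀ k i, IsIntegral ℤ ((q k).coeff i))
    (hmu : IsIntegral ℤ mu) (hrel : ∑ k, P k = 0) (hW : ∀ k, Integral (W k))
    (hWs : ∀ k m, (W k).coeff m ≠ 0 → ∀ a : Fin n' → ℤ,
      ∃ m', (∑ k, W k).coeff m' ≠ 0 ∧ ∑ i, a i * m i ≤ ∑ i, a i * m' i)
    (hWi : Interior (∑ k, W k))
    (hWf : ∀ a : Fin n' → ℤ, a ≠ 0 → Tame (face (∑ k, W k) a))
    (heq : ∀ k, lev (H.comp MvPolynomial.C) z (W k) =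
      H (MvPolynomial.C (mu * R ^ n) * (P k + q k))) : symb z ∈ unitPart v n' := by
  classical
  choose k hk using fun j => exists_ord v (z j)
  by_cases hk0 : k = 0
  · refine Submodule.subset_span ⟨z, fun j => ?_, rfl⟩
    rw [hk j, hk0, Pi.zero_apply, WithZero.exp_zero]
  obtain ⟨m1, hm1, hpos⟩ := hWi k hk0
  obtain ⟨m0, hm0, hmax⟩ := exists_max_dot k hm1
  have hWint : Integral (∑ k, W k) := by
    intro m
    rw [AddMonoidAlgebra.coeff_sum, Finsupp.finsetSum_apply]
    exact IsIntegral.sum _ fun i _ => hW i m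
  have hmon : v ((mon z m0 : Lˣ) : L) = WithZero.exp (∑ i, k i * m0 i) := val_mon v z hk m0
  have hM : 0 < ∑ i, k i * m0 i := hpos.trans_le (hmax m1 hm1)
  -- the value of the sum is small
  have hsum : lev (H.comp MvPolynomial.C) z (∑ k, W k) =
      H (MvPolynomial.C (mu * R ^ n)) * H (∑ l, q l) := by
    rw [map_sum, Finset.sum_congr rfl fun k _ => heq k, ← map_sum, ← Finset.mul_sum,
      Finset.sum_add_distrib, hrel, zero_add, map_mul]
  have hlt : v (lev (H.comp MvPolynomial.C) z (∑ k, W k)) < v ((mon z m0 : Lˣ) : L) := by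
    rcases int_or_small H v hR ha hP hq hPint hqint hmu with h | ⟨l, hl⟩
    · have h1 : v (lev (H.comp MvPolynomial.C) z (∑ k, W k)) ≤ 1 := by
        rw [map_sum]
        refine Valuation.map_sum_le v fun i _ => ?_
        rw [heq i]
        exact h i
      refine h1.trans_lt ?_
      rw [hmon, ← WithZero.exp_zero, WithZero.exp_lt_exp]
      exact hM
    · by_cases hlam : H (MvPolynomial.C (mu * R ^ n)) = 0
      · rw [hsum, hlam, zero_mul, map_zero, hmon]
        exact WithZero.exp_pos
      · have hlam' : 0 < v (H (MvPolynomial.C (mu * R ^ n))) := (Valuation.pos_iff _).2 hlam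
        have h1 : v (lev (H.comp MvPolynomial.C) z (∑ k, W k)) <
            v (lev (H.comp MvPolynomial.C) z (W l)) := by
          rw [hsum, heq l, map_mul H, map_mul v, map_mul v]
          exact mul_lt_mul_of_pos_left hl hlam'
        refine h1.trans_le ?_
        refine val_lev_le (H.comp MvPolynomial.C) v (hW l) z hk fun m' hm' => ?_
        obtain ⟨m'', h2, h3⟩ := hWs l m' hm' k
        exact h3.trans (hmax m'' h2)
  have h1 := val_sub_face (H.comp MvPolynomial.C) v hWint z hk hm0 hmax
  have h3 : v (lev (H.comp MvPolynomial.C) z (face (∑ k, W k) k)) < v ((mon z m0 : Lˣ) : L) := by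
    have h4 : lev (H.comp MvPolynomial.C) z (face (∑ k, W k) k) =
        lev (H.comp MvPolynomial.C) z (∑ k, W k) -
        (lev (H.comp MvPolynomial.C) z (∑ k, W k) -
          lev (H.comp MvPolynomial.C) z (face (∑ k, W k) k)) := by ring
    rw [h4]
    exact (v.map_sub _ _).trans_lt (max_lt hlt h1)
  refine mem_unitPart_of_tame (H.comp MvPolynomial.C) v z (p := id) Function.injective_id
    (hWf k hk0) (m0 := m0) ?_ h3
  rw [coeff_face_of (∑ k, W k) k m0 hmax]
  exact hm0

end main

section ring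

variable {K : Type*} [Field K] {N d m : ℕ} (F : Sys K N d m) (lam : K)

theorem res_eqn (e : Fin (m + 1)) : F.res lam (F.eqn lam e) = 0 :=
  Ideal.Quotient.eq_zero_iff_mem.2 (Ideal.subset_span (Set.mem_range_self e))

variable {L : Type*} [CommRing L] (f : F.Rg lam →+* L)

theorem lev_z (e : Fin (m + 1)) :
    lev ((f.comp (F.px lam)).comp MvPolynomial.C)
      (fun i => Units.map (f : F.Rg lam →* L) (F.z lam i)) (F.W e) =
        (f.comp (F.px lam)) (MvPolynomial.C lam * F.form e) := by
  have h0 := res_eqn F lam e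
  unfold Sys.eqn at h0
  rw [map_sub, sub_eq_zero] at h0
  have h1 : f (F.res lam (tlau d (F.W e))) = (f.comp (F.px lam)) (MvPolynomial.C lam * F.form e) :=
    congrArg f h0
  rw [← h1]
  have h3 : f (F.res lam (tlau d (F.W e))) = _ := hom_eq_lev (R := MvPolynomial (Fin (d + 1)) K)
    (f.comp (F.res lam)) (AddMonoidAlgebra.mapRingHom (Fin (N + 1) → ℤ) MvPolynomial.C (F.W e))
  rw [h3, lev_map]
  rfl

end ring

/-- The symbol of a balanced system is unramified. -/
theorem unram {K : Type*} [Field K] {N d : ℕ} {F : Sys K N d (d + 1)} {σ : K →+* ℂ}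
    (hF : F.Balanced σ) {R mu : K} (hR : Res F.P R) (hmu : IsIntegral ℤ mu) {L : Type*} [Field L]
    (f : F.Rg (mu * R ^ F.n) →+* L) : KQ.map _ f (F.sym (mu * R ^ F.n)) ∈ Unramified L _ := by
  unfold Sys.sym
  rw [KQ.map_symb]
  unfold Unramified
  simp only [Submodule.mem_iInf]
  intro v _
  exact mem_unitPart_of_rel (f.comp (F.px (mu * R ^ F.n))) v _ hR hF.poly.a_pos hF.poly.P_hom
    hF.poly.q_deg hF.poly.P_int hF.poly.q_int hmu hF.rel hF.W_int hF.W_newt hF.interior hF.faces
    fun e => lev_z F _ f e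

end Pool.Agent.V7H64.FS
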