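import Pool.Agent.N65.TD.Defs
set_option autoImplicit false

/-!
Systems of equations `W_e(z) = λ F_e(x)`, with Laurent polynomials `W_e` and polynomials
`F_e = P_e + q_e`: definitions.
-/

namespace Pool.Agent.V7H64.FS

open Pool.Agent.TH826.MK (KQ symb Unramified Torus)

open Pool.Agent.N65.TL (LP TRing tlau tpol tz Integral Interior Tame)

open Pool.Agent.N65.TD (face)

/-- The data of a system `W_e(z) = λ F_e(x)`, `F_e = P_e + q_e`, `0 ≤ e ≤ m`, in the variables
`z_0, ..., z_N` and `x_0, ..., x_d`. -/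
structure Sys (K : Type*) [Field K] (N d m : ℕ) where
  /-- the Laurent polynomials `W_e` -/
  W : Fin (m + 1) → LP K (N + 1)
  /-- the weights of the variables `x_j` -/
  a : Fin (d + 1) → ℕ
  /-- the weight of the polynomials `P_e` -/
  n : ℕ
  /-- the polynomials `P_e` -/
  P : Fin (m + 1) → MvPolynomial (Fin (d + 1)) K
  /-- the lower terms `q_e` -/
  q : Fin (m + 1) → MvPolynomial (Fin (d + 1)) K

variable {K : Type*} [Field K] {N d m : ℕ} (F : Sys K N d m)

/-- The polynomial `F_e = P_e + q_e`. -/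
noncomputable def Sys.form (e : Fin (m + 1)) : MvPolynomial (Fin (d + 1)) K := F.P e + F.q e

section ring

variable (lam : K)

/-- The equation `W_e(z) - λ F_e(x)`. -/
noncomputable def Sys.eqn (e : Fin (m + 1)) : TRing K N d :=
  tlau d (F.W e) - tpol N (MvPolynomial.C lam * F.form e)

/-- The coordinate ring of the variety `W_e(z) = λ F_e(x)`, `0 ≤ e ≤ m`, `z_i ≠ 0`. -/
def Sys.Rg : Type _ := TRing K N d ⧸ Ideal.span (Set.range (F.eqn lam))

noncomputable instance : CommRing (F.Rg lam) :=
  Ideal.Quotient.commRing (Ideal.span (Set.range (F.eqn lam)))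

/-- The restriction of functions to the variety. -/
noncomputable def Sys.res : TRing K N d →+* F.Rg lam :=
  Ideal.Quotient.mk (Ideal.span (Set.range (F.eqn lam)))

/-- The polynomials in `x` as functions on the variety. -/
noncomputable def Sys.px : MvPolynomial (Fin (d + 1)) K →+* F.Rg lam := (F.res lam).comp (tpol N)

/-- The constants as functions on the variety. -/
noncomputable def Sys.cst : K →+* F.Rg lam := (F.px lam).comp MvPolynomial.C

/-- The units `z_i`. -/
noncomputable def Sys.z (i : Fin (N + 1)) : (F.Rg lam)ˣ :=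
  Units.map (F.res lam : TRing K N d →* F.Rg lam) (tz K d i)

end ring

section balanced

/-- `R` is a nonzero integer, and `R x_j ^ N` is a combination of the `P_k` with integral
coefficients, for all `j` and suitable `N`. -/
def Res {ι : Type*} [Fintype ι] (P : ι → MvPolynomial (Fin (d + 1)) K) (R : K) : Prop :=
  IsIntegral ℤ R ∧ R ≠ 0 ∧ ∀ j, ∃ (N : ℕ) (b : ι → MvPolynomial (Fin (d + 1)) K),
    (∀ k i, IsIntegral ℤ ((b k).coeff i)) ∧
    MvPolynomial.C R * MvPolynomial.X j ^ N = ∑ k, b k * P k

/-- The conditions on the polynomials `F_e = P_e + q_e`. -/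
structure Sys.Poly (F : Sys K N d m) : Prop where
  /-- positive weights -/
  a_pos : ∀ j, 0 < F.a j
  /-- the `P_e` are weighted homogeneous of weight `n` -/
  P_hom : ∀ e, (F.P e).IsWeightedHomogeneous F.a F.n
  /-- the monomials of `q_e` have a smaller weight -/
  q_deg : ∀ e, ∀ i ∈ (F.q e).support, Finsupp.weight F.a i < F.n
  /-- integral coefficients -/
  P_int : ∀ e i, IsIntegral ℤ ((F.P e).coeff i)
  /-- integral coefficients -/
  q_int : ∀ e i, IsIntegral ℤ ((F.q e).coeff i)

/-- There are a vertex `v` of the Newton polytope of `∑_e W_e`, a number `τ ≠ 0` and a point `p`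
with `F_e(p) = τ w_{e,v}` for all `e`, where `w_{e,v}` is the coefficient of `z^v` of `W_e`, such that
the matrix with the columns `w_v`, `∂F/∂x_0(p)`, ..., `∂F/∂x_d(p)` is invertible. -/
def Sys.Vertex (F : Sys K N d (d + 1)) (σ : K →+* ℂ) : Prop :=
  ∃ (al v : Fin (N + 1) → ℤ) (p : Fin (d + 1) → ℂ) (τ : ℂ), 0 < ∑ i, al i * v i ∧
    (∀ e m, (F.W e).coeff m ≠ 0 → m ≠ v → ∑ i, al i * m i < ∑ i, al i * v i) ∧ τ ≠ 0 ∧
    (∀ e, MvPolynomial.eval₂ σ p (F.form e) = τ * σ ((F.W e).coeff v)) ∧
    (Matrix.of fun e : Fin (d + 1 + 1) => (Fin.cons (σ ((F.W e).coeff v)) fun j =>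
      MvPolynomial.eval₂ σ p (MvPolynomial.pderiv j (F.form e)) : Fin (d + 1 + 1) → ℂ)).det ≠ 0

/-- The conditions on a system of `d + 2` equations. -/
structure Sys.Balanced (F : Sys K N d (d + 1)) (σ : K →+* ℂ) : Prop where
  /-- the conditions on the polynomials -/
  poly : F.Poly
  /-- the linear relation -/
  rel : ∑ e, F.P e = 0
  /-- the `P_e` have no common zero besides the origin -/
  infty : ∀ x : Fin (d + 1) → ℂ, (∀ e, MvPolynomial.eval₂ σ x (F.P e) = 0) → x = 0
  /-- integral coefficients -/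
  W_int : ∀ e, Integral (F.W e)
  /-- the Newton polytopes of the `W_e` are contained in the Newton polytope of the sum -/
  W_newt : ∀ e m, (F.W e).coeff m ≠ 0 → ∀ a : Fin (N + 1) → ℤ,
    ∃ m', (∑ e, F.W e).coeff m' ≠ 0 ∧ ∑ i, a i * m i ≤ ∑ i, a i * m' i
  /-- the origin is an interior point of the Newton polytope of the sum -/
  interior : Interior (∑ e, F.W e)
  /-- the face polynomials of the sum divide products of polynomials of simplex type -/
  faces : ∀ a : Fin (N + 1) → ℤ, a ≠ 0 → Tame (face (∑ e, F.W e) a)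
  /-- vertex -/
  vertex : F.Vertex σ

variable (lam : K)

/-- The symbol `{z_0, ..., z_N}`. -/
noncomputable def Sys.sym : KQ (F.Rg lam) (N + 1) := symb (F.z lam)

/-- The symbol `{z_0, ..., z_N}` has an unramified image in the Milnor K-theory of all fields `L`
with a homomorphism from the coordinate ring. -/
def Sys.Unram.{u, v} {K : Type u} [Field K] {N d m : ℕ} (F : Sys K N d m) (lam : K) : Prop :=
  ∀ (L : Type v) [Field L] (f : F.Rg lam →+* L), KQ.map _ f (F.sym lam) ∈ Unramified L _

/-- There is a torus of dimension `N` in the complex points (over `σ`) of the variety, such that the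
quotient of the regulator of the symbol `{z_0, ..., z_N}` on this torus and of `t` differs from `q`
by at most `ε`. -/
def Sys.HasReg (σ : K →+* ℂ) (t q ε : ℝ) : Prop :=
  ∃ Γ : Torus (F.Rg lam) N, (∀ θ (x : K), Γ.e θ (F.cst lam x) = σ x) ∧
    |Γ.reg (F.sym lam) / t - q| ≤ ε

end balanced

end Pool.Agent.V7H64.FS
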