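import Pool.Agent.V7H64.FS.Def
set_option autoImplicit false

/-!
Polynomials without common zeros besides the origin.
-/

namespace Pool.Agent.V7H64.FS

variable {K : Type*} [Field K] [NumberField K] {d : ℕ} {σ : K →+* ℂ}

/-- If the `P_k` have no common zero besides the origin, then the powers of the variables are
combinations of the `P_k` up to integers. -/
theorem exists_res {ι : Type*} [Fintype ι] {P : ι → MvPolynomial (Fin (d + 1)) K}
    (hinf : ∀ x : Fin (d + 1) → ℂ, (∀ k, MvPolynomial.eval₂ σ x (P k) = 0) → x = 0) :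
    ∃ R, Res P R := by
  classical
  let _ : Algebra K ℂ := σ.toAlgebra
  have hae : ∀ (x : Fin (d + 1) → ℂ) (p : MvPolynomial (Fin (d + 1)) K),
      MvPolynomial.aeval x p = MvPolynomial.eval₂ σ x p := fun _ _ => rfl
  set I : Ideal (MvPolynomial (Fin (d + 1)) K) := Ideal.span (Set.range P) with hI
  have hX : ∀ j, ∃ N : ℕ, (MvPolynomial.X j : MvPolynomial (Fin (d + 1)) K) ^ N ∈ I := by
    intro j
    have h1 : (MvPolynomial.X j : MvPolynomial (Fin (d + 1)) K) ∈
        MvPolynomial.vanishingIdeal K (MvPolynomial.zeroLocus ℂ I) := by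
      rw [MvPolynomial.mem_vanishingIdeal_iff]
      intro x hx
      have h2 : x = 0 := by
        refine hinf x fun k => ?_
        rw [← hae]
        exact hx (P k) (Ideal.subset_span ⟨k, rfl⟩)
      rw [h2, MvPolynomial.aeval_X]
      rfl
    rw [MvPolynomial.vanishingIdeal_zeroLocus_eq_radical] at h1
    exact h1
  have hb : ∀ j, ∃ (N : ℕ) (b : ι → MvPolynomial (Fin (d + 1)) K),
      MvPolynomial.X j ^ N = ∑ k, b k * P k := by
    intro j
    obtain ⟨N, hN⟩ := hX j
    obtain ⟨b, hb⟩ := (Ideal.mem_span_range_iff_exists_fun).1 hN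
    exact ⟨N, b, hb.symm⟩
  choose N b hb using hb
  set S : Finset K := Finset.univ.biUnion fun j => Finset.univ.biUnion fun k =>
    (b j k).support.image fun i => (b j k).coeff i with hS
  have halg : Algebra.IsAlgebraic ℤ K :=
    (IsFractionRing.comap_isAlgebraic_iff (A := ℤ) (K := ℚ) (C := K)).2 inferInstance
  obtain ⟨y, hy, hint⟩ := Algebra.IsAlgebraic.exists_integral_multiples ℤ S
  have hyR : ((y : ℤ) : K) ≠ 0 := by exact_mod_cast hy
  refine ⟨((y : ℤ) : K), isIntegral_intCast y, hyR, fun j => ⟨N j, fun k =>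
    MvPolynomial.C ((y : ℤ) : K) * b j k, fun k i => ?_, ?_⟩⟩
  · rw [MvPolynomial.coeff_C_mul]
    by_cases h0 : (b j k).coeff i = 0
    · rw [h0, mul_zero]
      exact isIntegral_zero
    · have h1 := hint ((b j k).coeff i) (by
        rw [hS]
        refine Finset.mem_biUnion.2 ⟨j, Finset.mem_univ _, Finset.mem_biUnion.2
          ⟨k, Finset.mem_univ _, Finset.mem_image.2 ⟨i, MvPolynomial.mem_support_iff.2 h0, rfl⟩⟩⟩)
      rwa [zsmul_eq_mul] at h1
  · rw [hb j, Finset.mul_sum]
    exact Finset.sum_congr rfl fun k _ => (mul_assoc _ _ _).symm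

omit [NumberField K] in
/-- Multiples of `R`. -/
theorem Res.mul {ι : Type*} [Fintype ι] {P : ι → MvPolynomial (Fin (d + 1)) K} {R c : K}
    (hR : Res P R) (hc : IsIntegral ℤ c) (hc0 : c ≠ 0) : Res P (c * R) := by
  refine ⟨hc.mul hR.1, mul_ne_zero hc0 hR.2.1, fun j => ?_⟩
  obtain ⟨N, b, hb, he⟩ := hR.2.2 j
  refine ⟨N, fun k => MvPolynomial.C c * b k, fun k i => ?_, ?_⟩
  · rw [MvPolynomial.coeff_C_mul]
    exact hc.mul (hb k i)
  · rw [MvPolynomial.C_mul, mul_assoc, he, Finset.mul_sum]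
    exact Finset.sum_congr rfl fun k _ => (mul_assoc _ _ _).symm

end Pool.Agent.V7H64.FS
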