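import Pool.Agent.V7H64.FS.Def
import Pool.Agent.N65.TL.Ring
set_option autoImplicit false

/-!
Complex points of the systems `W_e(z) = λ F_e(x)`, and tori.
-/

namespace Pool.Agent.V7H64.FS

open Pool.Agent.TH826.MK

open Pool.Agent.N65.TL (LP lev lev_eq lev_map lev_single mon mon_zero mon_single TRing tlau tpol tz
  contDiff_zpow')

variable {K : Type*} [Field K] {N d m : ℕ} {F : Sys K N d m} {σ : K →+* ℂ} {lam : K}

/-- The complex points. -/
structure SPt (σ : K →+* ℂ) (F : Sys K N d m) (lam : K) (x : Fin (d + 1) → ℂ)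
    (z : Fin (N + 1) → ℂ) : Prop where
  ne : ∀ i, z i ≠ 0
  eq : ∀ e, ∑ m ∈ (F.W e).coeff.support, σ ((F.W e).coeff m) * ∏ i, z i ^ (m i) =
    σ lam * MvPolynomial.eval₂ σ x (F.form e)

variable {x : Fin (d + 1) → ℂ} {z : Fin (N + 1) → ℂ}

/-- evaluation on the Laurent polynomials -/
noncomputable def SPt.ev0 (h : SPt σ F lam x z) : TRing K N d →+* ℂ :=
  lev (MvPolynomial.eval₂Hom σ x) fun i => Units.mk0 (z i) (h.ne i)

theorem SPt.ev0_eq (h : SPt σ F lam x z) (P : LP (MvPolynomial (Fin (d + 1)) K) (N + 1)) :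
    h.ev0 (P : TRing K N d) =
      ∑ m ∈ P.coeff.support, MvPolynomial.eval₂ σ x (P.coeff m) * ∏ i, z i ^ (m i) := by
  refine (lev_eq _ _ P).trans (Finset.sum_congr rfl fun m _ => ?_)
  congr 1
  unfold mon
  rw [Units.coe_prod]
  exact Finset.prod_congr rfl fun i _ => by rw [Units.val_zpow_eq_zpow_val, Units.val_mk0]

theorem SPt.ev0_tpol (h : SPt σ F lam x z) (p : MvPolynomial (Fin (d + 1)) K) :
    h.ev0 (tpol N p) = MvPolynomial.eval₂ σ x p := by
  refine (lev_single _ _ 0 p).trans ?_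
  rw [mon_zero, Units.val_one, mul_one]
  rfl

theorem SPt.ev0_eqn (h : SPt σ F lam x z) (e : Fin (m + 1)) : h.ev0 (F.eqn lam e) = 0 := by
  have h1 : h.ev0 (tlau d (F.W e)) =
      ∑ m ∈ (F.W e).coeff.support, σ ((F.W e).coeff m) * ∏ i, z i ^ (m i) := by
    refine (lev_map _ _ _ (F.W e)).trans ((lev_eq _ _ (F.W e)).trans ?_)
    refine Finset.sum_congr rfl fun m _ => ?_
    congr 1
    · simp
    · unfold mon
      rw [Units.coe_prod]
      exact Finset.prod_congr rfl fun i _ => by rw [Units.val_zpow_eq_zpow_val, Units.val_mk0]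
  unfold Sys.eqn
  rw [map_sub, h1, h.ev0_tpol, h.eq, MvPolynomial.eval₂_mul, MvPolynomial.eval₂_C, sub_self]

/-- evaluation on the variety -/
noncomputable def SPt.ev (h : SPt σ F lam x z) : F.Rg lam →+* ℂ :=
  Ideal.Quotient.lift (Ideal.span (Set.range (F.eqn lam))) h.ev0 (by
    intro p hp
    have hle : Ideal.span (Set.range (F.eqn lam)) ≤ RingHom.ker h.ev0 := by
      rw [Ideal.span_le]
      rintro q ⟨e, rfl⟩
      exact h.ev0_eqn e
    exact hle hp)

theorem SPt.ev_res (h : SPt σ F lam x z) (P : TRing K N d) : h.ev (F.res lam P) = h.ev0 P :=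
  Ideal.Quotient.lift_mk _ _ _

theorem SPt.ev_px (h : SPt σ F lam x z) (p : MvPolynomial (Fin (d + 1)) K) :
    h.ev (F.px lam p) = MvPolynomial.eval₂ σ x p := by
  unfold Sys.px
  rw [RingHom.comp_apply, h.ev_res, h.ev0_tpol]

theorem SPt.ev_cst (h : SPt σ F lam x z) (u : K) : h.ev (F.cst lam u) = σ u := by
  unfold Sys.cst
  rw [RingHom.comp_apply, h.ev_px, MvPolynomial.eval₂_C]

theorem SPt.ev_z (h : SPt σ F lam x z) (i : Fin (N + 1)) :
    h.ev (F.z lam i : F.Rg lam) = z i := by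
  show h.ev (F.res lam (tz K d i : TRing K N d)) = _
  rw [h.ev_res]
  refine (lev_single _ _ (Pi.single i 1) 1).trans ?_
  rw [map_one, one_mul, mon_single, Units.val_mk0]

theorem SPt.congr {x' : Fin (d + 1) → ℂ} {z' : Fin (N + 1) → ℂ} (h : SPt σ F lam x z)
    (h' : SPt σ F lam x' z') (hx : x = x') (hz : z = z') : h.ev = h'.ev := by
  subst hx
  subst hz
  rfl

variable {D : ℕ} {X : (Fin D → ℝ) → Fin (d + 1) → ℂ} {Z : Fin (N + 1) → (Fin D → ℝ) → ℂ}

theorem contDiff_ev (hX : ContDiff ℝ 2 X) (hZ : ∀ i, Good (Z i))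
    (h : ∀ θ, SPt σ F lam (X θ) fun i => Z i θ) (b : F.Rg lam) :
    ContDiff ℝ 2 fun θ => (h θ).ev b := by
  have hxk : ∀ k, ContDiff ℝ 2 fun θ => X θ k := fun k => contDiff_pi.1 hX k
  have hmv : ∀ p : MvPolynomial (Fin (d + 1)) K,
      ContDiff ℝ 2 fun θ => MvPolynomial.eval₂ σ (X θ) p := by
    intro p
    induction p using MvPolynomial.induction_on with
    | C c => simpa using contDiff_const
    | add p q hp hq => simpa using hp.add hq
    | mul_X p k hp => simpa using hp.mul (hxk k)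
  obtain ⟨P, rfl⟩ : ∃ P : LP (MvPolynomial (Fin (d + 1)) K) (N + 1),
    F.res lam (P : TRing K N d) = b := Ideal.Quotient.mk_surjective b
  have e : (fun θ => (h θ).ev (F.res lam (P : TRing K N d))) = fun θ =>
      ∑ m ∈ P.coeff.support, MvPolynomial.eval₂ σ (X θ) (P.coeff m) *
        ∏ i, Z i θ ^ (m i) := by
    funext θ
    exact ((h θ).ev_res _).trans ((h θ).ev0_eq P)
  rw [e]
  exact ContDiff.sum fun m _ => (hmv _).mul (contDiff_prod fun i _ => contDiff_zpow' (hZ i) _)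

/-- a torus in the variety -/
noncomputable def mkS (hX : ContDiff ℝ 2 X) (hZ : ∀ i, Good (Z i))
    (h : ∀ θ, SPt σ F lam (X θ) fun i => Z i θ) (hXp : ∀ θ j, X (θ + Pi.single j 1) = X θ)
    (hZp : ∀ i, Per (Z i)) : Torus (F.Rg lam) D where
  e θ := (h θ).ev
  smooth b := contDiff_ev hX hZ h b
  periodic θ j := SPt.congr _ _ (hXp θ j) (funext fun i => hZp i θ j)

end Pool.Agent.V7H64.FS
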